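import Pool.Agent.V1143.KC.Gen

/-!
# Congruent Jacobians over function fields, in all Galois extensions of prime power degree

Let `k` be a finite field with `q` elements, `C` a curve over `k`, `K = k(C)` and `J` the Jacobian of a curve `X`
over `K`, without constant part. By the theorems of Artin, Tate, Milne and Kato, Trihan, `T_l Sha(J) = 0` for one
prime `l`, for all primes `l`, the finiteness of `Sha(J)` and the equality of the rank of `J(K)` with the
order of vanishing of `L(J/K, T) = ∏ P_v(T ^ (deg v))⁻¹` at `T = 1 / q` are equivalent; `rank ≤ order` is known.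

We compare two Jacobians `J` and `J⁺` (or any two Euler products) whose Euler factors are congruent modulo a
prime `ℓ ∤ q` outside a finite set `B` of places; this is true if `J[ℓ]` and `J⁺[ℓ]` are isomorphic Galois
modules, or if they have isomorphic semisimplifications. Over `K` and over ALL Galois extensions `L` of `K` of
degree a power of `ℓ` the difference of the multiplicities of the central zeros modulo `ℓ` is given exactly by
the Euler factors at the places in `B`. So information on the order of vanishing for `J` over `L` comes from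
`J⁺`, and sometimes decides the question.
-/

set_option autoImplicit false

open Polynomial FF Module Pool.Agent.W343.BSD Pool.Agent.V1143.KC.KA

namespace Pool.Agent.Results.MP_1bdb59_nt.CongruentJacobians

/-- `∏ P_v(T ^ (deg v))⁻¹ = U / V` with integral polynomials `P_v`, `U`, `V`, where `P_v(0) = V(0) = 1`. -/
structure LData (k : Type) {K : Type} [Field k] [Field K] [Algebra k K] (P : Place k K → ℤ[X])
    (U V : ℤ[X]) : Prop where
  local_one : ∀ v, (P v).coeff 0 = 1
  den_one : V.coeff 0 = 1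
  product : ∃ Λ : PowerSeries ℤ, IsProduct k P Λ ∧ Λ * (V : PowerSeries ℤ) = (U : PowerSeries ℤ)

/-- For the places `w` of `L` over places `v ∉ T` the reciprocal zeros of `P'_w` are the `f`-th powers of those
of `P_v`, where `f` is the residue degree. -/
def Lifts {k K k' L : Type} [Field k] [Field K] [Algebra k K] [Field k'] [Field L]
    [Algebra k' L] [Algebra K L] (T : Finset (Place k K)) (P : Place k K → ℤ[X])
    (P' : Place k' L → ℤ[X]) : Prop :=
  ∀ (v : Place k K) (w : Place k' L) (e f : ℕ), v ∉ T → LiesOver w v e →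
    Nat.card (S.Res w) = Nat.card (S.Res v) ^ f → IsPower f (P v) (P' w)

/-- `m(R) + ∑_{w over T} m_w`: the multiplicity of the zero `q' ^ (-b)` of `R` modulo `ℓ`, and those of the
Euler factors at the places of `L` over `T`. -/
noncomputable def total {k K : Type} (k' L : Type) [Field k] [Field K] [Algebra k K] [Field k'] [Field L]
    [Algebra k' L] [Algebra K L] (ℓ : ℕ) [Fact ℓ.Prime] (b : ℕ) (T : Finset (Place k K))
    (P' : Place k' L → ℤ[X]) (R : ℤ[X]) : ℕ :=
  mult ℓ (Nat.card k') b R + ∑ᶠ w ∈ Above k' L T, locMult ℓ b w (P' w)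

/-- `∑ ([L : K] / e_v) m_v` over the `v` in `B` which are not in `T`. -/
noncomputable def localSum {k K : Type} (k' L : Type) [Field k] [Field K] [Algebra k K] [Field k']
    [Field L] [Algebra k' L] [Algebra K L] [DecidableEq (Place k K)] (ℓ : ℕ) [Fact ℓ.Prime] (b : ℕ)
    (B T : Finset (Place k K)) (P : Place k K → ℤ[X]) : ℕ :=
  ∑ v ∈ B \ T, finrank K L / ramIndex k' L v * locMult ℓ b v (P v)

open Classical in
/-- Let `P_v` and `P⁺_v` be Euler factors with products `U / V` and `U⁺ / V⁺`, congruent modulo `ℓ` at all places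
`v ∉ B`. For a polynomial let `m` be the multiplicity of the zero `q ^ (-b)` modulo `ℓ`, for Euler factors let
`m_v`, `m⁺_v` be the ones of `P_v(T ^ (deg v))`, `P⁺_v(T ^ (deg v))`. (Jacobians without constant part: `b = 1`,
`V = V⁺ = 1`.)

(1) `m(U) - m(V) + ∑_{v in B} m_v = m(U⁺) - m(V⁺) + ∑_{v in B} m⁺_v`.

(2) Let `L` be any Galois extension of `K` of degree a power of `ℓ`, with the field of constants `k'` with `q'`
elements, and let `P'_w`, `P'⁺_w` be the Euler factors over `L`, with products `R / W` and `R⁺ / W⁺`; they are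
those which come from `K` outside a set `T ⊆ B` (for `T` one takes the places where the reduction over `L` is
better than over `K`) and arbitrary over `T`. Then
`[k' : k] (m(R) - m(W) + ∑_{w over T} m_w) + ∑_{v in B, not in T} ([L : K] / e_v) m_v =`
`[k' : k] (m(R⁺) - m(W⁺) + ∑_{w over T} m⁺_w) + ∑_{v in B, not in T} ([L : K] / e_v) m⁺_v`.

(3) Let `m(W) = 0`. If `m(R⁺) = 0`, `m⁺_w = 0` for the `w` over `T` and `m⁺_v ≤ m_v` for the other `v` in `B`, then
`m(R) = 0`, `m_w = 0` for the `w` over `T`, `m⁺_v = m_v` for the other `v` in `B`; and `R` and `R⁺` do not vanish at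
`q' ^ (-b)`. For Jacobians: `J(L)` and `J⁺(L)` have rank `0` (Tate's inequality), and Q1 is true over `L` for both.

(4) If `n ≤ ord R` (for a Jacobian: if `J(L)` has `n` independent points) and the right side in (2) is at most
the left side with `n` in the place of `m(R)`, then `ord R = n`: Q1 is true for `J` over `L`. -/
theorem result (k K : Type) [Field k] [Finite k] [Field K] [Algebra k K] (hK : IsCurveField k K)
    (ℓ : ℕ) [Fact ℓ.Prime] (hℓ : (ℓ : k) ≠ 0) (b : ℕ) (P Pt : Place k K → ℤ[X])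
    (U V Ut Vt : ℤ[X]) (h : LData k P U V) (ht : LData k Pt Ut Vt) (B : Finset (Place k K))
    (hB : ∀ v, v ∉ B → (P v).map (Int.castRingHom (ZMod ℓ)) =
      (Pt v).map (Int.castRingHom (ZMod ℓ))) :
    -- (1)
    (mult ℓ (Nat.card k) b U + mult ℓ (Nat.card k) b Vt + ∑ v ∈ B, locMult ℓ b v (P v) =
      mult ℓ (Nat.card k) b Ut + mult ℓ (Nat.card k) b V + ∑ v ∈ B, locMult ℓ b v (Pt v)) ∧
    ∀ (k' L : Type) [Field k'] [Finite k'] [Field L] [Algebra k' L] [Algebra k k'] [Algebra k L]
      [Algebra K L] [IsScalarTower k K L] [IsScalarTower k k' L] [FiniteDimensional K L]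
      [IsGalois K L] (s : ℕ) (T : Finset (Place k K)) (P' Pt' : Place k' L → ℤ[X])
      (R W Rt Wt : ℤ[X]), IsCurveField k' L → finrank K L = ℓ ^ s → T ⊆ B →
      LData k' P' R W → LData k' Pt' Rt Wt → Lifts T P P' → Lifts T Pt Pt' →
      -- (2)
      (finrank k k' * (total k' L ℓ b T P' R + mult ℓ (Nat.card k') b Wt) +
          localSum k' L ℓ b B T P =
        finrank k k' * (total k' L ℓ b T Pt' Rt + mult ℓ (Nat.card k') b W) +
          localSum k' L ℓ b B T Pt) ∧
      -- (3)
      (mult ℓ (Nat.card k') b W = 0 → mult ℓ (Nat.card k') b Rt = 0 →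
        (∀ w ∈ Above k' L T, locMult ℓ b w (Pt' w) = 0) →
        (∀ v ∈ B, v ∉ T → locMult ℓ b v (Pt v) ≤ locMult ℓ b v (P v)) →
        mult ℓ (Nat.card k') b R = 0 ∧ (∀ w ∈ Above k' L T, locMult ℓ b w (P' w) = 0) ∧
        (∀ v ∈ B, v ∉ T → locMult ℓ b v (Pt v) = locMult ℓ b v (P v)) ∧
        order (Nat.card k') b R = 0 ∧ order (Nat.card k') b Rt = 0) ∧
      -- (4)
      ∀ n : ℕ, n ≤ order (Nat.card k') b R →
        finrank k k' * (total k' L ℓ b T Pt' Rt + mult ℓ (Nat.card k') b W) +
            localSum k' L ℓ b B T Pt ≤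
          finrank k k' * (n + ∑ᶠ w ∈ Above k' L T, locMult ℓ b w (P' w) +
            mult ℓ (Nat.card k') b Wt) + localSum k' L ℓ b B T P →
        order (Nat.card k') b R = n := by
  have i1 : FF.IsFF k K := ⟨hK.essFiniteType, hK.trdeg_eq_one⟩
  obtain ⟨hc, hV, Λ, hΛ, hU⟩ := h
  obtain ⟨hct, hVt, Λt, hΛt, hUt⟩ := ht
  have hone := Pool.Agent.V1143.KC.Gen.gen_mult (l := ℓ) b hc hct B hB hΛ hΛt hV hVt hU hUt
  refine ⟨by omega, ?_⟩
  intro k' L _ _ _ _ _ _ _ _ _ _ _ s T P' Pt' R W Rt Wt hL hdeg hTB h' ht' hl hlt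
  obtain ⟨hc', hW, Λ', hΛ', hR⟩ := h'
  obtain ⟨hct', hWt, Λt', hΛt', hRt⟩ := ht'
  obtain ⟨c1, c2, c3, c4, c5, c6, c7, c8⟩ := kida_gen k K k' L hK hL ℓ s hℓ hdeg b P P' hc hc' T hl
    Λ Λ' hΛ hΛ' U V R W hV hU hW hR
  obtain ⟨d1, d2, d3, d4, d5, d6, d7, d8⟩ := kida_gen k K k' L hK hL ℓ s hℓ hdeg b Pt Pt' hct hct'
    T hlt Λt Λt' hΛt hΛt' Ut Vt Rt Wt hVt hUt hWt hRt
  have hx : ∀ v, v ∉ B → locMult ℓ b v (P v) = locMult ℓ b v (Pt v) := by
    intro v hv
    unfold locMult mult
    rw [Polynomial.map_expand, Polynomial.map_expand, hB v hv]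
  have htwo : finrank k k' * (total k' L ℓ b T P' R + mult ℓ (Nat.card k') b Wt) +
      localSum k' L ℓ b B T P =
      finrank k k' * (total k' L ℓ b T Pt' Rt + mult ℓ (Nat.card k') b W) +
        localSum k' L ℓ b B T Pt :=
    Pool.Agent.V1143.KC.Gen.combine_gen (finrank K L) (finrank k k') _ _ _ _ _ _ _ _ _ _
      (fun v => ramIndex k' L v) _ _ T B hTB c1 hx hone c3 d3
  have hfin : FiniteDimensional k k' := Module.Finite.of_finite
  have hpos : 0 < finrank k k' := finrank_pos
  refine ⟨htwo, fun hW0 hRt0 hw0 hle => ?_, fun n hn hk => ?_⟩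
  · have ht0 : total k' L ℓ b T Pt' Rt = 0 := by
      unfold total
      rw [hRt0, zero_add]
      rw [finsum_mem_congr rfl hw0]
      simp
    have hls : localSum k' L ℓ b B T Pt ≤ localSum k' L ℓ b B T P :=
      Finset.sum_le_sum fun v hv => Nat.mul_le_mul_left _
        (hle v (Finset.mem_sdiff.1 hv).1 (Finset.mem_sdiff.1 hv).2)
    rw [ht0, hW0, Nat.add_zero, Nat.mul_zero, Nat.zero_add] at htwo
    have h0 : finrank k k' * (total k' L ℓ b T P' R + mult ℓ (Nat.card k') b Wt) = 0 := by omega
    have h1 : total k' L ℓ b T P' R + mult ℓ (Nat.card k') b Wt = 0 :=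
      (Nat.mul_eq_zero.1 h0).resolve_left hpos.ne'
    have h2 : total k' L ℓ b T P' R = 0 := by omega
    unfold total at h2
    have h3 : mult ℓ (Nat.card k') b R = 0 := by omega
    have h4 : ∑ᶠ w ∈ Above k' L T, locMult ℓ b w (P' w) = 0 := by omega
    rw [finsum_mem_eq_finite_toFinset_sum _ c2, Finset.sum_eq_zero_iff] at h4
    have heq : localSum k' L ℓ b B T Pt = localSum k' L ℓ b B T P := by omega
    refine ⟨h3, fun w hw => h4 w (by rw [Set.Finite.mem_toFinset]; exact hw), ?_, by omega,
      by omega⟩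
    intro v hv hvT
    have h5 := (Finset.sum_eq_sum_iff_of_le
      (fun v hv => Nat.mul_le_mul_left (finrank K L / ramIndex k' L v)
        (hle v (Finset.mem_sdiff.1 hv).1 (Finset.mem_sdiff.1 hv).2))).1 heq v
        (Finset.mem_sdiff.2 ⟨hv, hvT⟩)
    exact Nat.eq_of_mul_eq_mul_left (Pool.Agent.V1143.KC.Gen.ram_pos_gen (k := k) hL v) h5
  · have h1 : finrank k k' * (total k' L ℓ b T P' R + mult ℓ (Nat.card k') b Wt) ≤
        finrank k k' * (n + ∑ᶠ w ∈ Above k' L T, locMult ℓ b w (P' w) +
            mult ℓ (Nat.card k') b Wt) := by omega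
    have h2 := Nat.le_of_mul_le_mul_left h1 hpos
    unfold total at h2
    omega

end Pool.Agent.Results.MP_1bdb59_nt.CongruentJacobians
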